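import Mathlib
import Pool.Agent.Helper49.BLTMain

set_option autoImplicit false

namespace Pool.Agent.Results.MP_32c791_an.DirectionalBLT

open MeasureTheory

variable {d : ℕ}

/-- The element `M_b T_a g` of the Gabor system attached to the lattice point `(a, b) = A k`,
`k ∈ ℤ^{2d}`: here `a = (A k)(inl ·)` is the translation part and `b = (A k)(inr ·)` the
modulation part, so the function is `x ↦ exp (2πi b·x) g (x - a)`. -/
noncomputable def gaborAtom (A : Matrix (Fin d ⊕ Fin d) (Fin d ⊕ Fin d) ℝ)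
    (g : (Fin d → ℝ) → ℂ) (k : Fin d ⊕ Fin d → ℤ) (x : Fin d → ℝ) : ℂ :=
  Complex.exp (2 * (Real.pi : ℂ) * Complex.I *
    ((∑ j, A.mulVec (fun i => ((k i : ℤ) : ℝ)) (Sum.inr j) * x j : ℝ) : ℂ)) *
      g (x - fun j => A.mulVec (fun i => ((k i : ℤ) : ℝ)) (Sum.inl j))

/-- The Gabor system `{M_b T_a g : (a, b) ∈ A ℤ^{2d}}` is a Riesz basis of `L²(ℝ^d)`:
it is complete and satisfies the two-sided Riesz inequalities on finite sums. -/
def IsGaborRieszBasis (A : Matrix (Fin d ⊕ Fin d) (Fin d ⊕ Fin d) ℝ)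
    (g : (Fin d → ℝ) → ℂ) : Prop :=
  (∀ h : (Fin d → ℝ) → ℂ, MemLp h 2 volume →
      (∀ k : Fin d ⊕ Fin d → ℤ, ∫ x, (starRingEnd ℂ) (h x) * gaborAtom A g k x = 0) →
      h =ᵐ[volume] 0) ∧
    ∃ B₁ B₂ : ℝ, 0 < B₁ ∧ 0 < B₂ ∧
      ∀ (s : Finset (Fin d ⊕ Fin d → ℤ)) (c : (Fin d ⊕ Fin d → ℤ) → ℂ),
        B₁ * ∑ k ∈ s, ‖c k‖ ^ 2 ≤ ∫ x, ‖∑ k ∈ s, c k * gaborAtom A g k x‖ ^ 2 ∧
        ∫ x, ‖∑ k ∈ s, c k * gaborAtom A g k x‖ ^ 2 ≤ B₂ * ∑ k ∈ s, ‖c k‖ ^ 2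

/-- The first-order operator attached to the phase-space direction `(p, q) ∈ ℝ^d × ℝ^d` maps `g`
into `L²`: the distribution `(2πi q·x - p·∇) g` is a square integrable function `h`, that is,
`∫ g (p·∇φ + 2πi (q·x) φ) = ∫ h φ` for all test functions `φ`. For `(p, q) = (0, e_j)` this says
`x_j g ∈ L²`, for `(p, q) = (e_j, 0)` it says `∂_j g ∈ L²`, i.e. `ξ_j ĝ ∈ L²`. -/
def SmoothAlong (p q : Fin d → ℝ) (g : (Fin d → ℝ) → ℂ) : Prop :=
  ∃ h : (Fin d → ℝ) → ℂ, MemLp h 2 volume ∧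
    ∀ φ : (Fin d → ℝ) → ℂ, ContDiff ℝ ((⊤ : ℕ∞) : WithTop ℕ∞) φ → HasCompactSupport φ →
      ∫ x, g x * (fderiv ℝ φ x p + 2 * (Real.pi : ℂ) * Complex.I * ((∑ j, q j * x j : ℝ) : ℂ) * φ x)
        = ∫ x, h x * φ x

/-- **Balian-Low theorem for every lattice and every pair of conjugate phase-space directions.**
If the Gabor system of `g` over the lattice `A ℤ^{2d}` is a Riesz basis of `L²(ℝ^d)`, and
`(p, q)`, `(p', q')` are two directions with `Ω((p,q),(p',q')) = p·q' - q·p' ≠ 0`, then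
`(2πi q·x - p·∇) g` and `(2πi q'·x - p'·∇) g` are not both in `L²`. -/
theorem result (d : ℕ) (A : Matrix (Fin d ⊕ Fin d) (Fin d ⊕ Fin d) ℝ) (_hA : A.det ≠ 0)
    (g : (Fin d → ℝ) → ℂ) (hg : MemLp g 2 volume) (hR : IsGaborRieszBasis A g)
    (p q p' q' : Fin d → ℝ) (hΩ : ∑ j, (p j * q' j - q j * p' j) ≠ 0) :
    ¬ (SmoothAlong p q g ∧ SmoothAlong p' q' g) := by
  rintro ⟨⟨h, hh, hw⟩, ⟨h', hh', hw'⟩⟩
  refine Pool.Agent.Helper49.BLT.balian_low_directional A hg hR.1 hR.2 p q p' q' ?_ hh hh' hw hw'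
  intro h0
  apply hΩ
  rw [Finset.sum_sub_distrib]
  have h1 : ∑ j, p j * q' j = ∑ j, q' j * p j :=
    Finset.sum_congr rfl fun j _ => mul_comm _ _
  rw [h1]
  linarith

/-- Sanity check: the coordinate version. For a Riesz basis over any lattice, and for EVERY
coordinate `j`, `x_j g` and the weak derivative `∂_j g` are not both in `L²`. -/
theorem coordinate_version (d : ℕ) (A : Matrix (Fin d ⊕ Fin d) (Fin d ⊕ Fin d) ℝ)
    (hA : A.det ≠ 0) (g : (Fin d → ℝ) → ℂ) (hg : MemLp g 2 volume)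
    (hR : IsGaborRieszBasis A g) (j : Fin d) :
    ¬ (MemLp (fun x : Fin d → ℝ => ((x j : ℝ) : ℂ) * g x) 2 volume ∧
      ∃ h : (Fin d → ℝ) → ℂ, MemLp h 2 volume ∧
        ∀ φ : (Fin d → ℝ) → ℂ, ContDiff ℝ ((⊤ : ℕ∞) : WithTop ℕ∞) φ → HasCompactSupport φ →
          ∫ x, g x * fderiv ℝ φ x (Pi.single j (1 : ℝ) : Fin d → ℝ) = - ∫ x, h x * φ x) := by
  rintro ⟨hx, h, hh, hw⟩
  refine result d A hA g hg hR (Pi.single j 1) 0 0 (Pi.single j 1) ?_ ⟨?_, ?_⟩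
  · simp [Pi.single_apply]
  · refine ⟨fun x => - h x, hh.neg, fun φ hφ hs => ?_⟩
    have h1 := hw φ hφ hs
    have h2 : ∫ x, -h x * φ x = - ∫ x, h x * φ x := by
      rw [← integral_neg]
      apply integral_congr_ae
      exact ae_of_all _ fun x => by ring
    rw [h2, ← h1]
    apply integral_congr_ae
    apply ae_of_all
    intro x
    simp
  · refine ⟨fun x => 2 * (Real.pi : ℂ) * Complex.I * (((x j : ℝ) : ℂ) * g x),
      hx.const_mul _, fun φ hφ hs => ?_⟩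
    apply integral_congr_ae
    apply ae_of_all
    intro x
    simp [Pi.single_apply]
    ring

end Pool.Agent.Results.MP_32c791_an.DirectionalBLT
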